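import Mathlib

set_option autoImplicit false
open Finset

namespace Pool.Agent.Results.MP_cd59f5_co.Antisymm

def IsPM {n : ℕ} (M : SimpleGraph (Fin n)) : Prop := ∀ v, ∃! w, M.Adj v w

def R {n : ℕ} (M : SimpleGraph (Fin n)) : Set (Fin n → ℕ) :=
  {d | Antitone d ∧ (∀ i, 1 ≤ d i) ∧
    ∃ G : SimpleGraph (Fin n), M ≤ G ∧ ∀ i, (G.neighborSet i).ncard = d i}

section
variable {n : ℕ}

open Classical in
private noncomputable def nb (G : SimpleGraph (Fin n)) (i : Fin n) : Finset (Fin n) :=
  univ.filter (G.Adj i)

private theorem mem_nb {G : SimpleGraph (Fin n)} {i v : Fin n} : v ∈ nb G i ↔ G.Adj i v := by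
  simp [nb]

private theorem ncard_nb (G : SimpleGraph (Fin n)) (i : Fin n) :
    (G.neighborSet i).ncard = (nb G i).card := by
  rw [← Set.ncard_coe_finset]
  congr 1
  ext v
  simp [mem_nb]

private def Tr (m p : Fin n → Fin n) : Prop :=
  ∀ G : SimpleGraph (Fin n), (∀ v, G.Adj v (m v)) → Antitone (fun i => (nb G i).card) →
    ∃ H : SimpleGraph (Fin n), (∀ v, H.Adj v (p v)) ∧ ∀ i, (nb H i).card = (nb G i).card

private theorem one_nb {H : SimpleGraph (Fin n)} {v w u : Fin n} (h1 : (nb H v).card = 1)
    (hw : H.Adj v w) (hu : H.Adj v u) : u = w :=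
  card_le_one.1 h1.le u (mem_nb.2 hu) w (mem_nb.2 hw)

private def U (m : Fin n → Fin n) (k : Fin n) : Finset (Fin n) :=
  univ.filter fun i => i < k ∧ m i < k

private theorem step1 {m p : Fin n → Fin n} (mm : ∀ v, m (m v) = v) (m0 : ∀ v, m v ≠ v)
    (pp : ∀ v, p (p v) = v) (T : Tr m p) (k : Fin n) : (U p k).card ≤ (U m k).card := by
  by_contra hlt
  push Not at hlt
  have hk : (U p k).card ≤ k := by
    rw [← Fin.card_Iio]
    exact card_le_card fun i hi => mem_Iio.2 (mem_filter.1 hi).2.1
  let G : SimpleGraph (Fin n) := SimpleGraph.fromRel fun u v =>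
    v = m u ∨ (u < k ∧ v < k) ∨ (u = k ∧ v < k ∧ m v < k)
  have adj : ∀ u v, G.Adj u v ↔ u ≠ v ∧ (v = m u ∨ (u < k ∧ v < k) ∨
      (u = k ∧ v < k ∧ m v < k) ∨ (v = k ∧ u < k ∧ m u < k)) := by
    intro u v
    have : u = m v ↔ v = m u := ⟨fun h => by rw [h, mm], fun h => by rw [h, mm]⟩
    simp only [G, SimpleGraph.fromRel_adj, this]
    tauto
  have da : ∀ i, i < k → (nb G i).card = k := by
    intro i hi
    have : nb G i = insert (if m i < k then k else m i) ((Iio k).erase i) := by
      ext v
      simp only [mem_nb, adj, mem_insert, mem_erase, mem_Iio]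
      have := m0 i
      split_ifs with c <;> omega
    rw [this, card_insert_of_notMem (by split_ifs with c <;> simp [c]),
      card_erase_of_mem (mem_Iio.2 hi), Fin.card_Iio]
    omega
  have db : (nb G k).card = (U m k).card + 1 := by
    have : nb G k = insert (m k) (U m k) := by
      ext v
      simp only [mem_nb, adj, mem_insert, U, mem_filter, mem_univ, true_and]
      have := m0 k
      omega
    rw [this, card_insert_of_notMem (by simp [U, mm])]
  have dc : ∀ i, k < i → (nb G i).card = 1 := by
    intro i hi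
    have : nb G i = {m i} := by
      ext v
      simp only [mem_nb, adj, mem_singleton]
      have := m0 i
      omega
    rw [this, card_singleton]
  obtain ⟨H, hp, hd⟩ := T G (fun v => (adj _ _).2 ⟨(m0 v).symm, Or.inl rfl⟩) (by
    intro u v huv
    dsimp only
    rcases lt_trichotomy u k with a | a | a <;> rcases lt_trichotomy v k with b | b | b
    all_goals first
      | omega
      | (simp only [da _ a, da _ b, le_refl])
      | (subst b; rw [da _ a, db]; omega)
      | (rw [da _ a, dc _ b]; omega)
      | (rw [a, b])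
      | (subst a; rw [db, dc _ b]; omega)
      | (rw [dc _ a, dc _ b]))
  have key : insert (p k) (U p k) ⊆ nb H k := by
    intro i hi
    rcases mem_insert.1 hi with rfl | hi
    · exact mem_nb.2 (hp k)
    · obtain ⟨h1, h2⟩ := (mem_filter.1 hi).2
      by_contra hn
      have : nb H i ⊆ (Iio k).erase i := by
        intro v hv
        have hv' := mem_nb.1 hv
        refine mem_erase.2 ⟨hv'.ne', mem_Iio.2 ?_⟩
        rcases lt_trichotomy v k with b | b | b
        · exact b
        · exact absurd (mem_nb.2 (b ▸ hv'.symm)) hn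
        · have := one_nb ((hd v).trans (dc v b)) (hp v) hv'.symm
          rw [this, pp] at h2
          omega
      have := card_le_card this
      rw [hd, da i h1, card_erase_of_mem (mem_Iio.2 h1), Fin.card_Iio] at this
      omega
  have := card_le_card key
  rw [card_insert_of_notMem (by simp [U, pp]), hd, db] at this
  omega

private theorem step2 {m p : Fin n → Fin n} (mm : ∀ v, m (m v) = v) (m0 : ∀ v, m v ≠ v)
    (T : Tr m p) (j : Fin n) (hj : ∀ v, j < v → m v = p v) (h1 : m j < p j) (h2 : p j < j)
    (h3 : p j < m (p j)) (h4 : m (p j) < j) : False := by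
  set b := p j with hb
  let G : SimpleGraph (Fin n) := SimpleGraph.fromRel fun u v =>
    v = m u ∨ (u < b ∧ v < j) ∨ (u = j ∧ v < b ∧ m v ≤ j) ∨ (u = b ∧ b < v ∧ v < j ∧ m v < b)
  have adj : ∀ u v, G.Adj u v ↔ u ≠ v ∧ (v = m u ∨ (u < b ∧ v < j) ∨ (v < b ∧ u < j) ∨
      (u = j ∧ v < b ∧ m v ≤ j) ∨ (v = j ∧ u < b ∧ m u ≤ j) ∨
      (u = b ∧ b < v ∧ v < j ∧ m v < b) ∨ (v = b ∧ b < u ∧ u < j ∧ m u < b)) := by
    intro u v
    have : u = m v ↔ v = m u := ⟨fun h => by rw [h, mm], fun h => by rw [h, mm]⟩
    simp only [G, SimpleGraph.fromRel_adj, this]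
    tauto
  have da : ∀ i, i < b → (nb G i).card = j := by
    intro i hi
    have : nb G i = insert (if m i ≤ j then j else m i) ((Iio j).erase i) := by
      ext v
      simp only [mem_nb, adj, mem_insert, mem_erase, mem_Iio]
      have := m0 i
      split_ifs with c <;> omega
    rw [this, card_insert_of_notMem (by split_ifs with c <;> simp; omega),
      card_erase_of_mem (mem_Iio.2 (hi.trans h2)), Fin.card_Iio]
    omega
  have db1 : (nb G b).card ≤ j := by
    rw [← Fin.card_Iio]
    refine card_le_card fun v hv => ?_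
    simp only [mem_nb, adj, mem_Iio] at hv ⊢
    omega
  have db2 : (b : ℕ) + 1 ≤ (nb G b).card := by
    rw [← Fin.card_Iio, ← card_insert_of_notMem (a := m b) (by simp; omega)]
    refine card_le_card fun v hv => ?_
    simp only [mem_nb, adj, mem_Iio, mem_insert] at hv ⊢
    omega
  have dc : ∀ i, b < i → i < j → (nb G i).card = b + 1 := by
    intro i hi hi'
    have : nb G i = insert (if m i < b then b else m i) (Iio b) := by
      ext v
      simp only [mem_nb, adj, mem_insert, mem_Iio]
      have := m0 i
      split_ifs with c <;> omega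
    rw [this, card_insert_of_notMem (by split_ifs with c <;> simp [c]), Fin.card_Iio]
  have mj : m (m j) ≤ j := (mm j).le
  have dd : nb G j = univ.filter fun v => v < b ∧ m v ≤ j := by
    ext v
    simp only [mem_nb, adj, mem_filter, mem_univ, true_and]
    constructor
    · rintro ⟨-, rfl | h⟩
      · exact ⟨h1, mj⟩
      · omega
    · omega
  have dd1 : (nb G j).card ≤ b := by
    rw [← Fin.card_Iio, dd]
    exact card_le_card fun v hv => mem_Iio.2 (mem_filter.1 hv).2.1
  have dd2 : 1 ≤ (nb G j).card := card_pos.2 ⟨m j, by rw [dd]; simp [h1, mj]⟩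
  have de : ∀ i, j < i → (nb G i).card = 1 := by
    intro i hi
    have : nb G i = {m i} := by
      ext v
      simp only [mem_nb, adj, mem_singleton]
      have := m0 i
      omega
    rw [this, card_singleton]
  obtain ⟨H, hp, hd⟩ := T G (fun v => (adj _ _).2 ⟨(m0 v).symm, Or.inl rfl⟩) (by
    intro u v huv
    dsimp only
    have cs : ∀ w, (w < b ∧ (nb G w).card = j) ∨ w = b ∨
        (b < w ∧ w < j ∧ (nb G w).card = b + 1) ∨ w = j ∨ (j < w ∧ (nb G w).card = 1) := by
      intro w
      rcases lt_trichotomy w b with c | c | c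
      · exact Or.inl ⟨c, da w c⟩
      · exact Or.inr (Or.inl c)
      · rcases lt_trichotomy w j with e | e | e
        · exact Or.inr (Or.inr (Or.inl ⟨c, e, dc w c e⟩))
        · exact Or.inr (Or.inr (Or.inr (Or.inl e)))
        · exact Or.inr (Or.inr (Or.inr (Or.inr ⟨e, de w e⟩)))
    rcases cs u with a | a | a | a | a <;> rcases cs v with c | c | c | c | c
    all_goals first
      | omega
      | (rw [a]; omega)
      | (rw [c]; omega)
      | (rw [a, c]; omega)
      | (rw [a, c]))
  have key : insert b (nb G j) ⊆ nb H j := by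
    intro i hi
    rcases mem_insert.1 hi with rfl | hi
    · exact mem_nb.2 (hp j)
    · rw [dd] at hi
      obtain ⟨c1, c2⟩ := (mem_filter.1 hi).2
      by_contra hn
      have : nb H i ⊆ (Iio j).erase i := by
        intro v hv
        have hv' := mem_nb.1 hv
        refine mem_erase.2 ⟨hv'.ne', mem_Iio.2 ?_⟩
        rcases lt_trichotomy v j with e | e | e
        · exact e
        · exact absurd (mem_nb.2 (e ▸ hv'.symm)) hn
        · have := one_nb ((hd v).trans (de v e)) (hp v) hv'.symm
          rw [this, ← hj v e, mm] at c2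
          omega
      have := card_le_card this
      rw [hd, da i c1, card_erase_of_mem (mem_Iio.2 (c1.trans h2)), Fin.card_Iio] at this
      omega
  have := card_le_card key
  rw [card_insert_of_notMem (by rw [dd]; simp), hd] at this
  omega

private theorem half {m p : Fin n → Fin n} (mm : ∀ v, m (m v) = v) (m0 : ∀ v, m v ≠ v)
    (pp : ∀ v, p (p v) = v) (p0 : ∀ v, p v ≠ v) (T : Tr m p) (T' : Tr p m) (j : Fin n)
    (hj : ∀ v, j < v → m v = p v) (h1 : m j < p j) : False := by
  have h2 : p j < j := by
    rcases lt_trichotomy (p j) j with c | c | c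
    · exact c
    · exact absurd c (p0 j)
    · have := hj _ c
      rw [pp] at this
      have h := mm (p j)
      rw [this] at h
      omega
  have h4 : m (p j) < j := by
    rcases lt_trichotomy (m (p j)) j with c | c | c
    · exact c
    · have := mm (p j)
      rw [c] at this
      omega
    · have := hj _ c
      rw [mm] at this
      have h := congrArg p this
      rw [pp, pp] at h
      omega
  rcases lt_trichotomy (p j) (m (p j)) with c | c | c
  · exact step2 mm m0 T j hj h1 h2 c h4
  · exact m0 _ c.symm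
  · set b := p j with hb
    have pb : p b = j := pp j
    let k : Fin n := ⟨b + 1, by omega⟩
    have hk : (k : ℕ) = b + 1 := rfl
    have e1 : U p k = U p b := by
      ext i
      simp only [U, mem_filter, mem_univ, true_and]
      have h5 : i = b → p i = j := fun h => h ▸ pb
      have h6 : p i = b → i = j := fun h => by rw [← pp i, h, pb]
      omega
    have e2 : insert b (U m b) ⊆ U m k := by
      intro i hi
      simp only [U, mem_filter, mem_univ, true_and, mem_insert] at hi ⊢
      rcases hi with rfl | hi <;> omega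
    have e3 := card_le_card e2
    rw [card_insert_of_notMem (by simp [U])] at e3
    have a1 := step1 mm m0 pp T b
    have a2 := step1 pp p0 mm T' k
    rw [e1] at a2
    omega

private theorem tr_of {M N : SimpleGraph (Fin n)} {m p : Fin n → Fin n}
    (hm : ∀ v w, M.Adj v w ↔ w = m v) (hp : ∀ v w, N.Adj v w ↔ w = p v) (h : R M ⊆ R N) :
    Tr m p := by
  intro G hG hA
  have : (fun i => (nb G i).card) ∈ R M :=
    ⟨hA, fun i => card_pos.2 ⟨m i, mem_nb.2 (hG i)⟩, G,
      fun v w hvw => by rw [(hm v w).1 hvw]; exact hG v, ncard_nb G⟩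
  obtain ⟨-, -, H, hH, hd⟩ := h this
  exact ⟨H, fun v => hH ((hp v _).2 rfl), fun i => (ncard_nb H i).symm.trans (hd i)⟩

private theorem fn_of {M : SimpleGraph (Fin n)} (h : IsPM M) :
    ∃ m : Fin n → Fin n, (∀ v w, M.Adj v w ↔ w = m v) ∧ (∀ v, m (m v) = v) ∧ ∀ v, m v ≠ v := by
  choose m h1 h2 using h
  have hm : ∀ v w, M.Adj v w ↔ w = m v := fun v w => ⟨h2 v w, fun e => e ▸ h1 v⟩
  exact ⟨m, hm, fun v => ((hm _ _).1 (h1 v).symm).symm, fun v => (h1 v).ne'⟩

end

theorem result (n : ℕ) (M N : SimpleGraph (Fin n)) (hM : IsPM M) (hN : IsPM N)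
    (h1 : R N ⊆ R M) (h2 : R M ⊆ R N) : M = N := by
  obtain ⟨m, hm, mm, m0⟩ := fn_of hM
  obtain ⟨p, hp, pp, p0⟩ := fn_of hN
  have T := tr_of hm hp h2
  have T' := tr_of hp hm h1
  have : ∀ v, m v = p v := by
    by_contra hne
    push Not at hne
    obtain ⟨j, hj, hmax⟩ := exists_max_image (univ.filter fun v => m v ≠ p v) id
      (by obtain ⟨v, hv⟩ := hne; exact ⟨v, by simpa using hv⟩)
    have hj' : ∀ v, j < v → m v = p v := fun v hv => by
      by_contra c
      exact absurd (hmax v (by simpa using c)) (not_le.2 hv)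
    rcases lt_or_gt_of_ne (mem_filter.1 hj).2 with c | c
    · exact half mm m0 pp p0 T T' j hj' c
    · exact half pp p0 mm m0 T' T j (fun v hv => (hj' v hv).symm) c
  ext v w
  rw [hm, hp, this]

end Pool.Agent.Results.MP_cd59f5_co.Antisymm
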